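import Mathlib
import Pool.Agent.Helper88.LG.Goals

set_option autoImplicit false

open Finset

open scoped Classical

namespace Pool.Agent.Helper26.LG

open Pool.Agent.Helper88.LG

/-- elements of one residue class: counting by the length of the interval -/
theorem card_le_of_mod (P a : ℕ) (hP : 1 ≤ P) (T : Finset ℕ) (n0 n1 : ℕ)
    (h0 : n0 % P = a) (hmod : ∀ n ∈ T, n % P = a) (hlo : ∀ n ∈ T, n0 ≤ n)
    (hhi : ∀ n ∈ T, n ≤ n1) : T.card ≤ (n1 - n0) / P + 1 := by
  have hsub : ∀ n ∈ T, n - n0 = P * ((n - n0) / P) := by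
    intro n hn
    have hdvd : P ∣ n - n0 := by
      apply (Nat.modEq_iff_dvd' (hlo n hn)).mp
      show n0 % P = n % P
      rw [h0, hmod n hn]
    exact (Nat.mul_div_cancel' hdvd).symm
  have hcard : T.card ≤ (Finset.range ((n1 - n0) / P + 1)).card := by
    apply Finset.card_le_card_of_injOn (fun n => (n - n0) / P)
    · intro n hn
      have hn' : n ∈ T := hn
      simp only [Finset.coe_range, Set.mem_Iio]
      have h1 : n - n0 ≤ n1 - n0 := Nat.sub_le_sub_right (hhi n hn') n0
      exact Nat.lt_succ_of_le (Nat.div_le_div_right h1)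
    · intro n hn m hm hnm
      have hn' : n ∈ T := hn
      have hm' : m ∈ T := hm
      have e1 := hsub n hn'
      have e2 := hsub m hm'
      have hnm' : (n - n0) / P = (m - n0) / P := hnm
      rw [hnm', ← e2] at e1
      have l1 := hlo n hn'
      have l2 := hlo m hm'
      omega
  rwa [Finset.card_range] at hcard

theorem idx_mono : Monotone idx := by
  intro a b hab
  unfold idx
  exact Nat.sub_le_sub_right (Nat.monotone_primeCounting hab) 1

/-- a prime in `(n, m]` raises the index -/
theorem idx_lt (n m q : ℕ) (hn : 2 ≤ n) (hq : q.Prime) (h1 : n < q) (h2 : q ≤ m) :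
    idx n < idx m := by
  have hpos : 1 ≤ Nat.primeCounting n := by
    have : Nat.primeCounting 2 ≤ Nat.primeCounting n := Nat.monotone_primeCounting hn
    have h2 : Nat.primeCounting 2 = 1 := by decide
    omega
  have hlt : Nat.primeCounting n < Nat.primeCounting q := by
    have ha : Nat.primeCounting n ≤ Nat.primeCounting (q - 1) :=
      Nat.monotone_primeCounting (by omega)
    have hb : Nat.primeCounting q = Nat.primeCounting (q - 1) + 1 := by
      have e : q = (q - 1) + 1 := by omega
      conv_lhs => rw [e]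
      unfold Nat.primeCounting Nat.primeCounting'
      rw [Nat.count_succ, ← e]
      simp [hq]
    omega
  have hle : Nat.primeCounting q ≤ Nat.primeCounting m := Nat.monotone_primeCounting h2
  unfold idx
  omega

theorem fiber_bound (x P L a : ℕ) (V T : Finset ℕ) (j : ℕ) (hP : 1 ≤ P)
    (hne : T.Nonempty) (hT : ∀ n ∈ T, 2 ≤ n ∧ x / 2 < n ∧ n ≤ x ∧ n % P = a ∧ idx n = j)
    (hV : ∀ m, x / 2 < m → m ≤ x → (¬ ∃ q, q.Prime ∧ q ≤ m ∧ m < q + L) → m ∈ V) :
    (T.card : ℝ) ≤ (L / P + 1) + ((V.filter (fun m => idx m = j)).card : ℝ) / P := by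
  set n0 := T.min' hne with hn0
  set n1 := T.max' hne with hn1
  have m0 : n0 ∈ T := T.min'_mem hne
  have m1 : n1 ∈ T := T.max'_mem hne
  have hlo : ∀ n ∈ T, n0 ≤ n := fun n hn => T.min'_le n hn
  have hhi : ∀ n ∈ T, n ≤ n1 := fun n hn => T.le_max' n hn
  obtain ⟨a0, b0, c0, d0, e0⟩ := hT n0 m0
  obtain ⟨a1, b1, c1, d1, e1⟩ := hT n1 m1
  have hc := card_le_of_mod P a hP T n0 n1 d0 (fun n hn => (hT n hn).2.2.2.1) hlo hhi
  -- the largest prime `≤ n0`
  have hex : ∃ q, q.Prime ∧ q ≤ n0 ∧ ∀ q', q'.Prime → q' ≤ n0 → q' ≤ q := by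
    have hS : ((Finset.range (n0 + 1)).filter Nat.Prime).Nonempty :=
      ⟨2, by simp [Nat.prime_two]; omega⟩
    refine ⟨((Finset.range (n0 + 1)).filter Nat.Prime).max' hS, ?_, ?_, ?_⟩
    · exact (Finset.mem_filter.mp (Finset.max'_mem _ hS)).2
    · have := (Finset.mem_filter.mp (Finset.max'_mem _ hS)).1
      rw [Finset.mem_range] at this
      omega
    · intro q' hq' hle
      apply Finset.le_max'
      rw [Finset.mem_filter, Finset.mem_range]
      exact ⟨by omega, hq'⟩
  obtain ⟨q, hq, hqn, hqmax⟩ := hex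
  have hsub : Finset.Icc n0 n1 ⊆ Finset.Ico n0 (n0 + L) ∪ V.filter (fun m => idx m = j) := by
    intro m hm
    rw [Finset.mem_Icc] at hm
    rw [Finset.mem_union, Finset.mem_Ico, Finset.mem_filter]
    by_cases hmL : m < n0 + L
    · left; exact ⟨hm.1, hmL⟩
    · right
      have hidx : idx m = j := by
        apply le_antisymm
        · rw [← e1]; exact idx_mono hm.2
        · rw [← e0]; exact idx_mono hm.1
      refine ⟨?_, hidx⟩
      apply hV m (by omega) (by omega)
      rintro ⟨q', hq', hq'm, hlt⟩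
      have hq'n : q' ≤ n0 := by
        by_contra hcon
        have := idx_lt n0 m q' a0 hq' (by omega) hq'm
        omega
      omega
  have hcard : n1 - n0 + 1 ≤ L + (V.filter (fun m => idx m = j)).card := by
    have h1 := Finset.card_le_card hsub
    have h2 := Finset.card_union_le (Finset.Ico n0 (n0 + L)) (V.filter (fun m => idx m = j))
    rw [Nat.card_Icc] at h1
    rw [Nat.card_Ico] at h2
    have h3 : n0 ≤ n1 := hlo n1 m1
    omega
  have hPr : (0 : ℝ) < P := by exact_mod_cast hP
  have hreal : (T.card : ℝ) ≤ ((n1 - n0 : ℕ) : ℝ) / P + 1 := by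
    have h1 : (T.card : ℝ) ≤ (((n1 - n0) / P + 1 : ℕ) : ℝ) := by exact_mod_cast hc
    have h2 : (((n1 - n0) / P : ℕ) : ℝ) ≤ ((n1 - n0 : ℕ) : ℝ) / P := Nat.cast_div_le
    push_cast at h1
    push_cast at h2
    linarith
  have hreal2 : ((n1 - n0 : ℕ) : ℝ) ≤ L + ((V.filter (fun m => idx m = j)).card : ℝ) := by
    have : n1 - n0 ≤ L + (V.filter (fun m => idx m = j)).card := by omega
    exact_mod_cast this
  have h3 : ((n1 - n0 : ℕ) : ℝ) / P ≤
      (L + ((V.filter (fun m => idx m = j)).card : ℝ)) / P :=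
    div_le_div_of_nonneg_right hreal2 hPr.le
  rw [add_div] at h3
  linarith

theorem cn : StmtCN := by
  intro x P H L a T V hP hL hT hV
  have hPr : (0 : ℝ) < P := by exact_mod_cast hP
  have hsum : T.card = ∑ j ∈ T.image idx, (T.filter (fun n => idx n = j)).card :=
    Finset.card_eq_sum_card_image idx T
  have hsumR : (T.card : ℝ) = ∑ j ∈ T.image idx, ((T.filter (fun n => idx n = j)).card : ℝ) := by
    exact_mod_cast hsum
  rw [hsumR]
  have hb : ∀ j ∈ T.image idx, ((T.filter (fun n => idx n = j)).card : ℝ) ≤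
      (L / P + 1) + ((V.filter (fun m => idx m = j)).card : ℝ) / P := by
    intro j hj
    obtain ⟨n, hn, hnj⟩ := Finset.mem_image.mp hj
    apply fiber_bound x P L a V (T.filter (fun n => idx n = j)) j hP
      ⟨n, Finset.mem_filter.mpr ⟨hn, hnj⟩⟩
    · intro m hm
      obtain ⟨hmT, hmj⟩ := Finset.mem_filter.mp hm
      obtain ⟨h1, h2, h3, h4, -⟩ := hT m hmT
      exact ⟨h1, h2, by omega, h4, hmj⟩
    · exact hV
  have h1 := Finset.sum_le_sum hb
  refine h1.trans ?_
  rw [Finset.sum_add_distrib, Finset.sum_const, nsmul_eq_mul, ← Finset.sum_div]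
  have h2 : ∑ j ∈ T.image idx, ((V.filter (fun m => idx m = j)).card : ℝ) ≤ V.card := by
    have h3 : ∑ j ∈ T.image idx, (V.filter (fun m => idx m = j)).card ≤ V.card := by
      have hdis : ∀ i ∈ T.image idx, ∀ j ∈ T.image idx, i ≠ j →
          Disjoint (V.filter (fun m => idx m = i)) (V.filter (fun m => idx m = j)) := by
        intro i _ j _ hij
        rw [Finset.disjoint_filter]
        intro m _ hi hj
        exact hij (hi.symm.trans hj)
      rw [← Finset.card_biUnion hdis]
      apply Finset.card_le_card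
      intro m hm
      obtain ⟨j, _, hj⟩ := Finset.mem_biUnion.mp hm
      exact (Finset.mem_filter.mp hj).1
    exact_mod_cast h3
  have h4 : (∑ j ∈ T.image idx, ((V.filter (fun m => idx m = j)).card : ℝ)) / P ≤ V.card / P :=
    div_le_div_of_nonneg_right h2 hPr.le
  linarith

end Pool.Agent.Helper26.LG
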